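import Pool.Agent.H13.DfaB

namespace Pool.Agent.Results.MP_467d97_co.Lower
open Finset Filter Pool.Agent.H13.Dfa

/-- `σ` contains every permutation of length `k` as a pattern -/
def Super (k : ℕ) {n r : ℕ} (σ : Fin n → Fin r) : Prop :=
  ∀ τ : Equiv.Perm (Fin k), ∃ i : Fin k → Fin n, StrictMono i ∧
    ∀ j j', τ j < τ j' ↔ σ (i j) < σ (i j')

lemma rank {K : ℕ} (d : Fin K → ℕ) (hd : Function.Injective d) (h1 : ∀ t, 1 ≤ d t) :
    ∃ π : Fin K → Fin K, Function.Bijective π ∧ ∀ t, (π t : ℕ) + 1 ≤ d t := by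
  have lt : ∀ t, (univ.filter (fun s => d s < d t)).card < K := by
    intro t
    have := card_lt_card (s := univ.filter (fun s => d s < d t)) (t := univ)
      (filter_ssubset.2 ⟨t, mem_univ t, lt_irrefl _⟩)
    simpa using this
  have mono : ∀ s t, d s < d t →
      (univ.filter (fun x => d x < d s)).card < (univ.filter (fun x => d x < d t)).card := by
    intro s t h
    apply card_lt_card
    rw [ssubset_iff_of_subset (monotone_filter_right _ fun x _ hx => hx.trans h)]
    exact ⟨s, by simpa using h, by simp⟩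
  refine ⟨fun t => ⟨_, lt t⟩, Finite.injective_iff_bijective.1 ?_, fun t => ?_⟩
  · intro s t h
    have h' := congrArg Fin.val h
    rcases lt_trichotomy (d s) (d t) with c | c | c
    · exact absurd h' (mono s t c).ne
    · exact hd c
    · exact absurd h' (mono t s c).ne'
  · have : (univ.filter (fun s => d s < d t)).card ≤ (Ico 1 (d t)).card :=
      card_le_card_of_injOn d (fun s hs => by simpa [h1 s] using hs) hd.injOn
    have := h1 t
    simp at *; omega

lemma cost_app {V α : Type} (δ : V → α → V) (c : V → α → ℕ) (K : ℕ) (hc : ∀ v t, c v t ≤ K)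
    (l : List α) (x : α) (v : V) : cost δ c v (l ++ [x]) ≤ cost δ c v l + K := by
  induction l generalizing v with
  | nil => simpa [cost] using hc v x
  | cons t l ih => simp only [List.cons_append, cost]; have := ih (δ v t); omega

lemma dfa {n K : ℕ} (σ : Fin n → Fin K) : ∃ (δ : Fin (n + 1) → Fin K → Fin (n + 1))
    (π : Fin (n + 1) → Fin K → Fin K), (∀ p, Function.Bijective (π p)) ∧
    ∀ (l : List (Fin n)) (p : Fin (n + 1)), l.Pairwise (· < ·) → (∀ i ∈ l, (p : ℕ) ≤ i) →
      cost δ (fun v t => (π v t : ℕ) + 1) p (l.map σ) + p ≤ n := by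
  classical
  let S : Fin (n + 1) → Fin K → Finset (Fin n) := fun p t =>
    univ.filter (fun i => (p : ℕ) ≤ i ∧ σ i = t)
  let d : Fin (n + 1) → Fin K → ℕ := fun p t =>
    if h : (S p t).Nonempty then ((S p t).min' h : ℕ) + 1 - p else n + 1 + t
  have hm : ∀ p t (h : (S p t).Nonempty), (p : ℕ) ≤ (S p t).min' h ∧ σ ((S p t).min' h) = t :=
    fun p t h => (mem_filter.1 (min'_mem _ h)).2
  have hr : ∀ p, ∃ π : Fin K → Fin K, Function.Bijective π ∧ ∀ t, (π t : ℕ) + 1 ≤ d p t := by
    intro p
    apply rank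
    · intro s t h
      simp only [d] at h
      split_ifs at h with h1 h2 h2
      · have a := hm p s h1
        have b := hm p t h2
        rw [← a.2, ← b.2]
        congr 1; apply Fin.ext; omega
      · have := ((S p s).min' h1).2; omega
      · have := ((S p t).min' h2).2; omega
      · apply Fin.ext; omega
    · intro t
      simp only [d]
      split_ifs with h
      · have := (hm p t h).1; omega
      · omega
  choose π h1 h2 using hr
  refine ⟨fun p t => if h : (S p t).Nonempty then ((S p t).min' h).succ else 0, π, h1, ?_⟩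
  intro l
  induction l with
  | nil => intro p _ _; have := p.2; simp [cost]; omega
  | cons i l ih =>
    intro p hp hl
    rw [List.pairwise_cons] at hp
    have hi : i ∈ S p (σ i) := by simpa [S] using hl i (by simp)
    have hne : (S p (σ i)).Nonempty := ⟨i, hi⟩
    have a1 := h2 p (σ i)
    have a2 : (S p (σ i)).min' hne ≤ i := min'_le _ _ hi
    have a3 := (hm p _ hne).1
    have a4 := ih ((S p (σ i)).min' hne).succ hp.2 (fun j hj => by
      have := lt_of_le_of_lt a2 (hp.1 j hj)
      rw [Fin.val_succ]; exact this)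
    simp only [d, dif_pos hne] at a1
    simp only [List.map_cons, cost, dif_pos hne]
    rw [Fin.val_succ] at a4
    omega

theorem result : ∀ᶠ k : ℕ in atTop, ∀ (n : ℕ) (σ : Fin n → Fin (k + 1)), Super k σ →
    ((k : ℝ) ^ 2 + k) / 2 - 5 * (k : ℝ) ^ (1.7 : ℝ) ≤ n := by
  classical
  filter_upwards [(tendsto_add_atTop_nat 1).eventually (core (1 / 2) (by norm_num)),
    eventually_ge_atTop 1] with k hk h1 n σ hσ
  have hk1 : (1:ℝ) ≤ k := by exact_mod_cast h1
  have p1 : (k : ℝ) ≤ (k : ℝ) ^ (1.7 : ℝ) := Real.self_le_rpow_of_one_le hk1 (by norm_num)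
  by_cases hn : k ^ 2 ≤ n
  · have : (k : ℝ) ^ 2 ≤ n := by exact_mod_cast hn
    nlinarith
  obtain ⟨δ, π, hπ, hcost⟩ := dfa σ
  have h := hk (Fin (n + 1)) (by simp; nlinarith) δ (fun v t => (π v t : ℕ) + 1)
    (fun v t => (π v t).2) (fun v => perm_sum _ (hπ v)) 0
  by_contra hlt
  have p2 : ((k + 1 : ℕ) : ℝ) ^ (1.7 : ℝ) ≤ 4 * (k : ℝ) ^ (1.7 : ℝ) := by
    have a : ((k + 1 : ℕ) : ℝ) ^ (1.7 : ℝ) ≤ (2 * k) ^ (1.7 : ℝ) :=
      Real.rpow_le_rpow (by positivity) (by push_cast; linarith) (by norm_num)
    have b : (2:ℝ) ^ (1.7 : ℝ) ≤ 2 ^ (2:ℝ) :=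
      Real.rpow_le_rpow_of_exponent_le (by norm_num) (by norm_num)
    rw [Real.mul_rpow (by norm_num) (by linarith)] at a
    norm_num at a b ⊢
    nlinarith
  choose i hi1 hi2 using hσ
  have inj : ∀ τ, Function.Injective (σ ∘ i τ) := by
    intro τ j j' e
    apply τ.injective
    have e' : σ (i τ j) = σ (i τ j') := e
    apply le_antisymm <;> rw [← not_lt, hi2, e'] <;> exact lt_irrefl _
  have miss : ∀ τ, ∃ x, x ∉ List.ofFn (σ ∘ i τ) := by
    intro τ
    by_contra hc
    push Not at hc
    have := Fintype.card_le_of_surjective (σ ∘ i τ) fun x => by simpa [List.mem_ofFn] using hc x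
    simp at this
  choose x hx using miss
  have card : (univ : Finset (Equiv.Perm (Fin k))).card ≤ ((ords (k + 1) univ).filter
      (fun l => (cost δ (fun v t => (π v t : ℕ) + 1) 0 l : ℝ) ≤
        ((k + 1 : ℕ) : ℝ) ^ 2 / 2 - ((k + 1 : ℕ) : ℝ) ^ (1.7 : ℝ))).card := by
    apply card_le_card_of_injOn (fun τ => List.ofFn (σ ∘ i τ) ++ [x τ])
    · intro τ _
      simp only [coe_filter, Set.mem_setOf_eq]
      constructor
      · have := mem_ords (List.ofFn (σ ∘ i τ) ++ [x τ]) univ (by
          rw [List.nodup_append]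
          refine ⟨List.nodup_ofFn.2 (inj τ), by simp, fun a ha b hb e => hx τ ?_⟩
          rw [← List.mem_singleton.1 hb, ← e]; exact ha) (fun _ _ => mem_univ _)
        simpa using this
      · have a1 := cost_app δ (fun v t => (π v t : ℕ) + 1) (k + 1) (fun v t => (π v t).2)
          (List.ofFn (σ ∘ i τ)) (x τ) 0
        have a2 := hcost (List.ofFn (i τ)) 0 (List.pairwise_ofFn.2 fun a b hab => hi1 τ hab)
          (fun _ _ => Nat.zero_le _)
        rw [List.map_ofFn] at a2
        have a3 : (cost δ (fun v t => (π v t : ℕ) + 1) 0 (List.ofFn (σ ∘ i τ) ++ [x τ]) : ℝ) ≤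
          n + (k + 1) := by exact_mod_cast (by omega : _ ≤ n + (k + 1))
        push_cast at p2 ⊢
        nlinarith
    · intro τ _ τ' _ e
      have e1 := List.ofFn_injective (List.append_inj_left' e rfl)
      have sm : StrictMono (τ' ∘ τ.symm) := by
        intro a b hab
        have e2 := congrFun e1
        simp only [Function.comp_apply] at e2 ⊢
        rw [hi2, ← e2, ← e2, ← hi2]; simpa using hab
      have := (sm.range_inj strictMono_id).1 (by
        rw [Set.range_id]; exact (τ'.surjective.comp τ.symm.surjective).range_eq)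
      ext j
      have := congrFun this (τ j)
      simp at this; rw [this]
  rw [card_univ, Fintype.card_perm, Fintype.card_fin] at card
  have c1 := mul_le_mul_of_nonneg_left ((Nat.cast_le (α := ℝ)).2 card)
    (Nat.cast_nonneg (α := ℝ) (k + 1))
  have c2 := c1.trans h
  rw [Nat.factorial_succ, Nat.cast_mul] at c2
  have : (0:ℝ) < ((k + 1 : ℕ) : ℝ) * k.factorial := by positivity
  linarith

end Pool.Agent.Results.MP_467d97_co.Lower
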